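import Mathlib
import Pool.Agent.H.MP_67e79f_co.B

namespace Pool.Agent.Results.MP_67e79f_co.No

open Pool.Agent.H.MP_67e79f_co Sum

variable {V : Type}

/-- The labels along the walk `p`, read from its start, form a non-decreasing sequence. -/
def Increasing {G : SimpleGraph V} (l : Sym2 V → ℝ) {x y : V} (p : G.Walk x y) : Prop :=
  ∀ i, i + 2 ≤ p.length →
    l s(p.getVert i, p.getVert (i + 1)) ≤ l s(p.getVert (i + 1), p.getVert (i + 2))

/-- A good edge-labeling: no two distinct increasing paths have the same start and end.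
Only the values of `l` on edges of `G` matter. -/
def GoodLabeling (G : SimpleGraph V) (l : Sym2 V → ℝ) : Prop :=
  ∀ (x y : V) (p q : G.Walk x y), p.IsPath → q.IsPath → Increasing l p → Increasing l q → p = q

def IsGood (G : SimpleGraph V) : Prop := ∃ l, GoodLabeling G l

/-- `G` has a good edge-labeling taking at most `c` values on its edges. -/
def IsCGood (G : SimpleGraph V) (c : ℕ) : Prop :=
  ∃ l, GoodLabeling G l ∧ (l '' G.edgeSet).ncard ≤ c

/-- `G` has a tree decomposition of width at most `w`. -/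
def HasTreeDec (G : SimpleGraph V) (w : ℕ) : Prop :=
  ∃ (n : ℕ) (T : SimpleGraph (Fin n)) (bag : Fin n → Set V), T.IsTree ∧
    (∀ u v, G.Adj u v → ∃ t, u ∈ bag t ∧ v ∈ bag t) ∧
    (∀ v, (T.induce {t | v ∈ bag t}).Connected) ∧ ∀ t, (bag t).ncard ≤ w + 1

noncomputable def tw (G : SimpleGraph V) : ℕ := sInf {w | HasTreeDec G w}

theorem two {G : SimpleGraph V} {l : Sym2 V → ℝ} (h : GoodLabeling G l) {u v x y : V}
    (a1 : G.Adj u x) (a2 : G.Adj x v) (b1 : G.Adj u y) (b2 : G.Adj y v) (n1 : u ≠ v) (n2 : x ≠ y) :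
    ¬ (l s(u, x) ≤ l s(x, v) ∧ l s(u, y) ≤ l s(y, v)) := by
  rintro ⟨i1, i2⟩
  have := h u v (.cons a1 (.cons a2 .nil)) (.cons b1 (.cons b2 .nil))
    (by simp [a1.ne, a2.ne, n1]) (by simp [b1.ne, b2.ne, n1])
    (fun i hi => by
      have : i = 0 := by simp at hi; omega
      subst this; simpa using i1)
    (fun i hi => by
      have : i = 0 := by simp at hi; omega
      subst this; simpa using i2)
  exact n2 (by simpa using congrArg (fun p => p.getVert 1) this)

theorem three {G : SimpleGraph V} {l : Sym2 V → ℝ} (h : GoodLabeling G l) {u v x p q : V}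
    (a1 : G.Adj u x) (a2 : G.Adj x v) (b1 : G.Adj u p) (b2 : G.Adj p q) (b3 : G.Adj q v)
    (n1 : u ≠ v) (n2 : u ≠ q) (n3 : p ≠ v) :
    ¬ (l s(u, x) ≤ l s(x, v) ∧ l s(u, p) ≤ l s(p, q) ∧ l s(p, q) ≤ l s(q, v)) := by
  rintro ⟨i1, i2, i3⟩
  have := h u v (.cons a1 (.cons a2 .nil)) (.cons b1 (.cons b2 (.cons b3 .nil)))
    (by simp [a1.ne, a2.ne, n1]) (by simp [b1.ne, b2.ne, b3.ne, n1, n2, n3])
    (fun i hi => by
      have : i = 0 := by simp at hi; omega
      subst this; simpa using i1)
    (fun i hi => by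
      have : i = 0 ∨ i = 1 := by simp at hi; omega
      rcases this with rfl | rfl
      · simpa using i2
      · simpa using i3)
  simpa using congrArg (fun p => p.length) this

theorem diamond {G : SimpleGraph V} {l : Sym2 V → ℝ} (h : GoodLabeling G l) {u v x y p q : V}
    (a1 : G.Adj u x) (a2 : G.Adj x v) (c1 : G.Adj u y) (c2 : G.Adj y v)
    (b1 : G.Adj u p) (b2 : G.Adj p q) (b3 : G.Adj q v)
    (n1 : u ≠ v) (n2 : u ≠ q) (n3 : p ≠ v) (n4 : x ≠ y) :
    (l s(p, u) < l s(p, q) ∧ l s(q, v) < l s(p, q)) ∨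
      (l s(p, q) < l s(p, u) ∧ l s(p, q) < l s(q, v)) := by
  have t1 := two h a1 a2 c1 c2 n1 n4
  have t2 := two h a2.symm a1.symm c2.symm c1.symm n1.symm n4
  have t3 := three h a1 a2 b1 b2 b3 n1 n2 n3
  have t4 := three h c1 c2 b1 b2 b3 n1 n2 n3
  have t5 := three h a2.symm a1.symm b3.symm b2.symm b1.symm n1.symm n3.symm n2.symm
  have t6 := three h c2.symm c1.symm b3.symm b2.symm b1.symm n1.symm n3.symm n2.symm
  rw [Sym2.eq_swap (a := v) (b := x), Sym2.eq_swap (a := x) (b := u)] at t2 t5
  rw [Sym2.eq_swap (a := v) (b := y), Sym2.eq_swap (a := y) (b := u)] at t2 t6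
  rw [Sym2.eq_swap (a := v) (b := q), Sym2.eq_swap (a := q) (b := p)] at t5 t6
  rw [Sym2.eq_swap (a := u) (b := p)] at t3 t4
  grind

theorem many (M : ℕ) (hM : M ≠ 0) (l : Sym2 (Bs M ⊕ Md M) → ℝ) (h : GoodLabeling (G1 M) l) :
    M + 2 ≤ (l '' (G1 M).edgeSet).ncard := by
  obtain ⟨E, hE⟩ : ∃ E : ℕ → ℝ, ∀ b : Bs M, ty b = 1 → l s(inl none, inl b) = E (ix b) := by
    refine ⟨fun n => if g : n < M + 2 then l s(inl none, inl (some (⟨n, g⟩, 0))) else 0,
      fun b hb => ?_⟩
    have : b = some (⟨ix b, (bnd b).1⟩, 0) := code hb rfl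
    beta_reduce
    rw [dif_pos (bnd b).1, ← this]
  have D : ∀ (i : Fin M) (t : Fin 4) (c : Bs M), ty c = 1 → ix c = ix (PZ (i, t, true)) →
      (E (ix (PA (i, t, true))) < E (ix c) ∧ l s(inl c, inl (PZ (i, t, true))) < E (ix c)) ∨
      (E (ix c) < E (ix (PA (i, t, true))) ∧ E (ix c) < l s(inl c, inl (PZ (i, t, true)))) := by
    intro i t c c1 c2
    have p := poles (i, t, true)
    have tn : ty (none : Bs M) = 0 := rfl
    rw [← hE c c1, ← hE _ p.1]
    refine diamond h (u := inl (PA (i, t, true))) (v := inl (PZ (i, t, true)))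
      (x := inr (i, t, true)) (y := inr (i, t, false)) (p := inl none) (q := inl c)
      (Or.inl rfl) (Or.inr rfl) (Or.inr rfl) (Or.inl rfl) (Or.inr (Or.inl ⟨p.1, rfl⟩))
      (Or.inl ⟨rfl, c1⟩) (Or.inr (Or.inr (Or.inl ⟨c1, by omega, c2⟩))) ?_ ?_ ?_ (by simp)
    · intro e; rw [inl_injective e] at p; omega
    · intro e; rw [inl_injective e] at p; omega
    · intro e; rw [← inl_injective e] at p; omega
  have mono : ∀ i, i < M → (E i < E (i + 1) ∧ E (i + 1) < E (i + 2)) ∨
      (E (i + 1) < E i ∧ E (i + 2) < E (i + 1)) := by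
    intro i hi
    have d0 := D ⟨i, hi⟩ 0 (some (⟨i, by omega⟩, 0)) rfl rfl
    have d1 := D ⟨i, hi⟩ 1 (some (⟨i, by omega⟩, 0)) rfl rfl
    have d2 := D ⟨i, hi⟩ 2 (some (⟨i + 2, by omega⟩, 0)) rfl rfl
    have d3 := D ⟨i, hi⟩ 3 (some (⟨i + 2, by omega⟩, 0)) rfl rfl
    simp only [PA, PZ, ix] at d0 d1 d2 d3
    simp at d0 d1 d2 d3
    grind
  have inj : ∀ a b, a < b → b < M + 2 → E a ≠ E b := by
    intro a b hab hb
    rcases mono 0 (by omega) with ⟨h0, -⟩ | ⟨h0, -⟩
    · have s : ∀ i, i < M + 1 → E i < E (i + 1) := by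
        intro i
        induction i with
        | zero => exact fun _ => h0
        | succ i ih =>
          intro hi
          have := ih (by omega)
          rcases mono i (by omega) with ⟨-, g⟩ | ⟨g, -⟩
          · exact g
          · linarith
      have : ∀ b, a < b → b < M + 2 → E a < E b := by
        intro b hab
        induction b, hab using Nat.le_induction with
        | base => exact fun g => s a (by omega)
        | succ b _ ih => exact fun g => (ih (by omega)).trans (s b (by omega))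
      exact (this b hab hb).ne
    · have s : ∀ i, i < M + 1 → E (i + 1) < E i := by
        intro i
        induction i with
        | zero => exact fun _ => h0
        | succ i ih =>
          intro hi
          have := ih (by omega)
          rcases mono i (by omega) with ⟨g, -⟩ | ⟨-, g⟩
          · linarith
          · exact g
      have : ∀ b, a < b → b < M + 2 → E b < E a := by
        intro b hab
        induction b, hab using Nat.le_induction with
        | base => exact fun g => s a (by omega)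
        | succ b _ ih => exact fun g => (s b (by omega)).trans (ih (by omega))
      exact (this b hab hb).ne'
  have hi : Function.Injective (fun i : Fin (M + 2) => E i.val) := by
    intro a b e
    rcases lt_trichotomy a.val b.val with g | g | g
    · exact absurd e (inj _ _ g b.2)
    · exact Fin.ext g
    · exact absurd e.symm (inj _ _ g a.2)
  have hs : Set.range (fun i : Fin (M + 2) => E i.val) ⊆ l '' (G1 M).edgeSet := by
    rintro _ ⟨i, rfl⟩
    exact ⟨s(inl none, inl (some (i, 0))), Or.inl ⟨rfl, rfl⟩, hE _ rfl⟩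
  have := Set.ncard_le_ncard hs (Set.toFinite _)
  rwa [Set.ncard_range_of_injective hi, Nat.card_eq_fintype_card, Fintype.card_fin] at this

def ps {M : ℕ} : Bs M ⊕ Md M → ℕ
  | inl b => ix b
  | inr k => k.1.val + 1

theorem ps_lt {M : ℕ} (v : Bs M ⊕ Md M) : ps v < M + 2 := by
  rcases v with b | k
  · exact (bnd b).1
  · have := k.1.2
    simp only [ps]; omega

theorem dec (M : ℕ) : HasTreeDec (G1 M) 23 := by
  refine ⟨M + 2 + 1, SimpleGraph.pathGraph _,
    fun t => {v | v = inl none ∨ (ps v ≤ t.val ∧ t.val ≤ ps v + 1)}, path_tree _, ?_, ?_, ?_⟩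
  · have key : ∀ u v : Bs M ⊕ Md M, u = inl none ∨ v = inl none ∨
        (ps u ≤ ps v + 1 ∧ ps v ≤ ps u + 1) → ∃ t : Fin (M + 2 + 1),
        (u = inl none ∨ (ps u ≤ t.val ∧ t.val ≤ ps u + 1)) ∧
        (v = inl none ∨ (ps v ≤ t.val ∧ t.val ≤ ps v + 1)) := by
      intro u v h
      have := ps_lt u
      have := ps_lt v
      rcases h with h | h | h
      · exact ⟨⟨ps v, by omega⟩, Or.inl h, Or.inr ⟨le_rfl, by simp⟩⟩
      · exact ⟨⟨ps u, by omega⟩, Or.inr ⟨le_rfl, by simp⟩, Or.inl h⟩
      · exact ⟨⟨max (ps u) (ps v), by omega⟩, Or.inr ⟨by simp, by simp; omega⟩,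
          Or.inr ⟨by simp, by simp; omega⟩⟩
    have mid : ∀ (k : Md M) (b : Bs M), b = lo1 k ∨ b = hi1 k →
        ix b ≤ k.1.val + 1 + 1 ∧ k.1.val + 1 ≤ ix b + 1 := by
      intro k b h
      have := poles k
      unfold lo1 hi1 at h
      split_ifs at h <;> rcases h with rfl | rfl <;> omega
    rintro (a | k) (b | l) h
    · refine key _ _ ?_
      rcases h with h | h | h | h
      · exact Or.inl (congrArg inl (code h.1 ((bnd a).2.2 h.1)))
      · exact Or.inr (Or.inl (congrArg inl (code h.2 ((bnd b).2.2 h.2))))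
      · right; right; simp only [ps]; omega
      · right; right; simp only [ps]; omega
    · exact key _ _ (Or.inr (Or.inr (mid l a h)))
    · exact key _ _ (Or.inr (Or.inr (mid k b h).symm))
    · exact absurd h id
  · intro v
    by_cases h : v = inl none
    · exact interval_conn _ _ 0 (Or.inl h) (fun t _ => Fin.zero_le t) (fun _ _ _ _ _ => Or.inl h)
    · have := ps_lt v
      refine interval_conn _ _ ⟨ps v, by omega⟩ (Or.inr ⟨le_rfl, by simp⟩) ?_ ?_
      · rintro t (g | g)
        exacts [absurd g h, g.1]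
      · rintro t (g | g) s a b
        · exact absurd g h
        · exact Or.inr ⟨a, le_trans b g.2⟩
  · intro t
    have := Set.ncard_le_ncard_of_injOn (t := (Set.univ : Set (Bool × (Fin 4 ⊕ Fin 4 × Bool))))
      (s := {v : Bs M ⊕ Md M | v = inl none ∨ (ps v ≤ t.val ∧ t.val ≤ ps v + 1)})
      (fun v => (decide (ps v = t.val), Sum.map (fun b => ⟨ty b, by have := bnd b; omega⟩)
        (fun k => k.2) v)) (fun _ _ => Set.mem_univ _) (by
      rintro (a | k) ha (b | l) hb e <;>
        simp only [Prod.mk.injEq, Sum.map_inl, Sum.map_inr, inl.injEq,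
          inr.injEq, Fin.mk.injEq, reduceCtorEq, and_false, ps] at e
      · have := bnd a
        have := bnd b
        have tn : ty (none : Bs M) = 0 := rfl
        congr 1
        refine code e.2 ?_
        rcases ha with ha | ha
        · rw [inl_injective ha] at e ⊢
          exact ((bnd b).2.2 e.2.symm).symm
        rcases hb with hb | hb
        · rw [inl_injective hb] at e ⊢
          exact (bnd a).2.2 e.2
        simp only [ps] at ha hb
        have := decide_eq_decide.1 e.1
        omega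
      · rcases ha with ha | ha
        · cases ha
        rcases hb with hb | hb
        · cases hb
        simp only [ps] at ha hb
        have := decide_eq_decide.1 e.1
        congr 1
        exact Prod.ext (Fin.ext (by omega)) e.2) (Set.toFinite _)
    simpa [Set.ncard_univ] using this

theorem result : ¬ ∃ f : ℕ → ℕ, ∀ (V : Type) [Finite V] (G : SimpleGraph V),
    IsGood G → IsCGood G (f (tw G)) := by
  rintro ⟨f, hf⟩
  obtain ⟨M, hM⟩ : ∃ M, M = (Finset.range 24).sup f + 1 := ⟨_, rfl⟩
  obtain ⟨g, g1, g2⟩ := good1 M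
  obtain ⟨l, h1, h2⟩ := hf _ (G1 M) ⟨Sym2.lift ⟨g, g1⟩, fun x y p q hp hq ip iq =>
    uniq g1 g2 p q hp hq ip iq⟩
  have h3 := many M (by omega) l h1
  have h4 : tw (G1 M) ≤ 23 := Nat.sInf_le (dec M)
  have h5 : f (tw (G1 M)) ≤ (Finset.range 24).sup f :=
    Finset.le_sup (f := f) (Finset.mem_range.2 (by omega))
  omega

end Pool.Agent.Results.MP_67e79f_co.No
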